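import Pool.Agent.H922R2.K13

/-!
# Polynomials whose Newton polygon is a trapezoid are not coordinates

If `N⁰(F)` is the trapezoid `T_{m,n}` with `m, n > 0`, then `F` is not the first component of an
automorphism of the plane.
-/

set_option autoImplicit false

open MvPolynomial Pool.Agent.H922R2

namespace Pool.Agent.V11321.TZ

theorem exists_ge {F : MvPolynomial (Fin 2) ℂ} {m n : ℕ}
    (h : convexHull ℝ (insert ((0:ℝ), (0:ℝ))
      ((fun d : Fin 2 →₀ ℕ => ((d 0 : ℝ), (d 1 : ℝ))) '' (↑F.support : Set (Fin 2 →₀ ℕ))))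
      = {p : ℝ × ℝ | 0 ≤ p.2 ∧ p.2 ≤ (n : ℝ) ∧ 0 ≤ p.1 ∧ p.1 ≤ (m : ℝ) + (n : ℝ) - p.2})
    (α β x y K : ℕ) (hK : 0 < K) (hy : y ≤ n) (hxy : x + y ≤ m + n) (hv : α * x + β * y = K) :
    ∃ d ∈ F.support, K ≤ α * d 0 + β * d 1 := by
  by_contra hcon
  push Not at hcon
  have hconv : Convex ℝ {p : ℝ × ℝ | (α : ℝ) * p.1 + β * p.2 ≤ (K : ℝ) - 1} := by
    intro x hx y hy s t hs ht hst
    simp only [Set.mem_ofPred_eq, Prod.fst_add, Prod.snd_add, Prod.smul_fst, Prod.smul_snd,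
      smul_eq_mul] at hx hy ⊢
    have e1 := mul_le_mul_of_nonneg_left hx hs
    have e2 := mul_le_mul_of_nonneg_left hy ht
    have e3 : s * ((K : ℝ) - 1) + t * ((K : ℝ) - 1) = (K : ℝ) - 1 := by
      rw [← add_mul, hst, one_mul]
    linarith
  have hsub : insert ((0:ℝ), (0:ℝ))
      ((fun d : Fin 2 →₀ ℕ => ((d 0 : ℝ), (d 1 : ℝ))) '' (↑F.support : Set (Fin 2 →₀ ℕ))) ⊆
      {p : ℝ × ℝ | (α : ℝ) * p.1 + β * p.2 ≤ (K : ℝ) - 1} := by
    intro p hp
    rcases hp with rfl | ⟨d, hd, rfl⟩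
    · simp only [Set.mem_ofPred_eq]
      have : (1 : ℝ) ≤ K := by exact_mod_cast hK
      linarith
    · simp only [Set.mem_ofPred_eq]
      have h1 := hcon d hd
      have h2 : ((α * d 0 + β * d 1 : ℕ) : ℝ) + 1 ≤ K := by exact_mod_cast h1
      push_cast at h2
      linarith
  have h3 := convexHull_min hsub hconv
  rw [h] at h3
  have h4 : ((x : ℝ), (y : ℝ)) ∈ {p : ℝ × ℝ | (α : ℝ) * p.1 + β * p.2 ≤ (K : ℝ) - 1} := by
    apply h3
    have e1 : (y : ℝ) ≤ n := by exact_mod_cast hy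
    refine ⟨Nat.cast_nonneg _, e1, Nat.cast_nonneg _, ?_⟩
    have : (x : ℝ) + y ≤ m + n := by exact_mod_cast hxy
    simp only
    linarith
  simp only [Set.mem_ofPred_eq] at h4
  have h5 : ((α * x + β * y : ℕ) : ℝ) = K := by exact_mod_cast hv
  push_cast at h5
  linarith

theorem supp_le {F : MvPolynomial (Fin 2) ℂ} {m n : ℕ}
    (h : convexHull ℝ (insert ((0:ℝ), (0:ℝ))
      ((fun d : Fin 2 →₀ ℕ => ((d 0 : ℝ), (d 1 : ℝ))) '' (↑F.support : Set (Fin 2 →₀ ℕ))))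
      = {p : ℝ × ℝ | 0 ≤ p.2 ∧ p.2 ≤ (n : ℝ) ∧ 0 ≤ p.1 ∧ p.1 ≤ (m : ℝ) + (n : ℝ) - p.2})
    {d : Fin 2 →₀ ℕ} (hd : d ∈ F.support) : d 1 ≤ n ∧ d 0 + d 1 ≤ m + n := by
  have h2 : ((d 0 : ℝ), (d 1 : ℝ)) ∈ convexHull ℝ (insert ((0:ℝ), (0:ℝ))
    ((fun d : Fin 2 →₀ ℕ => ((d 0 : ℝ), (d 1 : ℝ))) '' (↑F.support : Set (Fin 2 →₀ ℕ)))) :=
    subset_convexHull ℝ _ (Set.mem_insert_of_mem _ ⟨d, hd, rfl⟩)
  rw [h] at h2
  obtain ⟨_, h3, _, h4⟩ := h2
  simp only at h3 h4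
  constructor
  · exact_mod_cast h3
  · have : (d 0 : ℝ) + d 1 ≤ m + n := by linarith
    exact_mod_cast this

/-- A polynomial whose Newton polygon is the trapezoid `T_{m,n}`, `m, n > 0`, is not a coordinate. -/
theorem not_coord {F : MvPolynomial (Fin 2) ℂ} {m n : ℕ} (hm : 0 < m) (hn : 0 < n)
    (h : convexHull ℝ (insert ((0:ℝ), (0:ℝ))
      ((fun d : Fin 2 →₀ ℕ => ((d 0 : ℝ), (d 1 : ℝ))) '' (↑F.support : Set (Fin 2 →₀ ℕ))))
      = {p : ℝ × ℝ | 0 ≤ p.2 ∧ p.2 ≤ (n : ℝ) ∧ 0 ≤ p.1 ∧ p.1 ≤ (m : ℝ) + (n : ℝ) - p.2})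
    (θ : GA ℂ) (hθ : θ (X 0) = F) : False := by
  have hLN : LN (DJ F) := hθ ▸ LN_ga θ
  have d0 : degreeOf 0 F = m + n := by
    apply le_antisymm
    · rw [degreeOf_le_iff]
      intro t ht
      have := supp_le h ht
      omega
    · obtain ⟨d, hd, hd2⟩ := exists_ge h 1 0 (m + n) 0 (m + n) (by omega) (by omega) (by omega)
        (by omega)
      have h1 := (degreeOf_le_iff.1 (le_refl (degreeOf 0 F))) d hd
      omega
  have d1 : degreeOf 1 F = n := by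
    apply le_antisymm
    · rw [degreeOf_le_iff]
      intro t ht
      exact (supp_le h ht).1
    · obtain ⟨d, hd, hd2⟩ := exists_ge h 0 1 0 n n hn (by omega) (by omega) (by omega)
      have h1 := (degreeOf_le_iff.1 (le_refl (degreeOf 1 F))) d hd
      omega
  obtain ⟨d, hd, hd2⟩ := exists_ge h 1 2 m n (m + 2 * n) (by omega) le_rfl (by omega) (by omega)
  have hd3 := supp_le h hd
  have e0 : d 0 = m := by omega
  have e1 : d 1 = n := by omega
  set g := Nat.gcd (m + n) n with hg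
  have hgpos : 0 < g := Nat.gcd_pos_of_pos_left _ (by omega)
  obtain ⟨m', hm'⟩ : g ∣ (m + n) := Nat.gcd_dvd_left _ n
  obtain ⟨n', hn'⟩ : g ∣ n := Nat.gcd_dvd_right (m + n) n
  have hm'pos : 0 < m' := Nat.pos_of_ne_zero (by rintro rfl; omega)
  have hn'pos : 0 < n' := Nat.pos_of_ne_zero (by rintro rfl; omega)
  have hco : Nat.Coprime m' n' := by
    have h := Nat.coprime_div_gcd_div_gcd (m := m + n) (n := n) hgpos
    rw [← hg] at h
    rwa [Nat.div_eq_of_eq_mul_right hgpos hm', Nat.div_eq_of_eq_mul_right hgpos hn'] at h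
  obtain ⟨-, h2, -⟩ := lead_struct F hLN g m' n' hgpos hm'pos hn'pos hco (by rw [d0, hm'])
    (by rw [d1, ← hn'])
  have h3 : coeff d ((Psi ![n', m'] F).coeff (wt ![n', m'] d)) = coeff d F := by
    rw [coeff_coeff_Psi, if_pos rfl]
  have h4 : wt ![n', m'] d = n' * m + m' * n := by
    simp [wt, e0, e1]
  have h5 : (Psi ![n', m'] F).natDegree < wt ![n', m'] d := by
    rw [h2, h4]
    have e : m' * n = n' * (g * m') := by
      calc m' * n = m' * (g * n') := by rw [← hn']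
        _ = n' * (g * m') := by ring
    rw [e]
    have := Nat.mul_pos hn'pos hm
    omega
  rw [Polynomial.coeff_eq_zero_of_natDegree_lt h5, coeff_zero] at h3
  exact (mem_support_iff.1 hd) h3.symm

end Pool.Agent.V11321.TZ
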